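import Mathlib
import Pool.Agent.Lib_helper42.RXFinal

/-!
# Weak amenability and triviality of R(X)
-/

set_option autoImplicit false

open MeasureTheory Filter Topology
open scoped BoundedContinuousFunction

namespace Pool.Agent.Results.MP_159c46_an.WeaklyAmenableRX

noncomputable section

/-- The restrictions to `X` of the rational functions whose poles lie off `X`. -/
def RationalOn (X : Set ℂ) : Subalgebra ℂ C(X, ℂ) where
  carrier := {f | ∃ p q : Polynomial ℂ, (∀ z ∈ X, q.eval z ≠ 0) ∧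
    ∀ z : X, f z = p.eval (z : ℂ) / q.eval (z : ℂ)}
  mul_mem' := by
    rintro f g ⟨p, q, hq, hf⟩ ⟨p', q', hq', hg⟩
    refine ⟨p * p', q * q', fun z hz => ?_, fun z => ?_⟩
    · rw [Polynomial.eval_mul]
      exact mul_ne_zero (hq z hz) (hq' z hz)
    · rw [ContinuousMap.mul_apply, hf, hg, Polynomial.eval_mul, Polynomial.eval_mul, div_mul_div_comm]
  add_mem' := by
    rintro f g ⟨p, q, hq, hf⟩ ⟨p', q', hq', hg⟩
    refine ⟨p * q' + q * p', q * q', fun z hz => ?_, fun z => ?_⟩
    · rw [Polynomial.eval_mul]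
      exact mul_ne_zero (hq z hz) (hq' z hz)
    · rw [ContinuousMap.add_apply, hf, hg, Polynomial.eval_mul, Polynomial.eval_add,
        Polynomial.eval_mul, Polynomial.eval_mul, div_add_div _ _ (hq z z.2) (hq' z z.2)]
  algebraMap_mem' := by
    intro c
    exact ⟨Polynomial.C c, 1, fun z _ => by simp, fun z => by simp⟩

/-- The uniform algebra `R(X)`: the uniform closure of the rational functions whose poles lie
off `X`. -/
def R (X : Set ℂ) [CompactSpace X] : Subalgebra ℂ C(X, ℂ) := (RationalOn X).topologicalClosure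

/-- The Banach algebra `R(X)` as a type. -/
def RX (X : Set ℂ) [CompactSpace X] : Type := R X

instance (X : Set ℂ) [CompactSpace X] : NormedCommRing (RX X) :=
  inferInstanceAs (NormedCommRing (R X))

instance (X : Set ℂ) [CompactSpace X] : NormedAlgebra ℂ (RX X) :=
  inferInstanceAs (NormedAlgebra ℂ (R X))

section defs

variable {A : Type} [NormedCommRing A] [NormedAlgebra ℂ A]

/-- `D` is a bounded bilinear form, that is, `a ↦ (c ↦ D a c)` is a bounded linear map from `A` to
the dual space of `A`. -/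
structure Bilin (D : A → A → ℂ) : Prop where
  add_left : ∀ a b c, D (a + b) c = D a c + D b c
  smul_left : ∀ (s : ℂ) (a c : A), D (s • a) c = s * D a c
  add_right : ∀ a b c, D a (b + c) = D a b + D a c
  smul_right : ∀ (s : ℂ) (a c : A), D a (s • c) = s * D a c
  bound : ∃ K : ℝ, ∀ a c, ‖D a c‖ ≤ K * ‖a‖ * ‖c‖

variable (A) in
/-- The commutative Banach algebra `A` is weakly amenable: every bounded derivation from `A` to its
dual space, with the module structures `(a • λ) c = λ (c * a)` and `(λ • a) c = λ (a * c)`, is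
zero. -/
def WeaklyAmenable : Prop :=
  ∀ D : A → A → ℂ, Bilin D → (∀ a b c : A, D (a * b) c = D b (c * a) + D a (b * c)) →
    ∀ a c, D a c = 0

/-- `E` is a commutative Banach `A`-bimodule with the action `a • x = x • a = act a x` (it need not
be unital). -/
structure Bimod {E : Type} [NormedAddCommGroup E] [NormedSpace ℂ E] (act : A → E → E) :
    Prop where
  add_left : ∀ a b x, act (a + b) x = act a x + act b x
  smul_left : ∀ (s : ℂ) (a : A) (x : E), act (s • a) x = s • act a x
  add_right : ∀ a x y, act a (x + y) = act a x + act a y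
  smul_right : ∀ (s : ℂ) (a : A) (x : E), act a (s • x) = s • act a x
  mul : ∀ a b x, act (a * b) x = act a (act b x)
  bound : ∃ K : ℝ, ∀ a x, ‖act a x‖ ≤ K * ‖a‖ * ‖x‖

/-- `D` is a bounded derivation from `A` to the bimodule `E`. -/
structure Deriv {E : Type} [NormedAddCommGroup E] [NormedSpace ℂ E] (act : A → E → E)
    (D : A → E) : Prop where
  add : ∀ a b, D (a + b) = D a + D b
  smul : ∀ (s : ℂ) (a : A), D (s • a) = s • D a
  bound : ∃ K : ℝ, ∀ a, ‖D a‖ ≤ K * ‖a‖
  leibniz : ∀ a b, D (a * b) = act a (D b) + act b (D a)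

variable (A) in
/-- Every bounded derivation from `A` to a commutative Banach `A`-bimodule is zero. -/
def NoDerivations : Prop :=
  ∀ (E : Type) [NormedAddCommGroup E] [NormedSpace ℂ E] [CompleteSpace E] (act : A → E → E),
    Bimod act → ∀ D : A → E, Deriv act D → ∀ a, D a = 0

end defs

/-! ### Derivations into modules and into the dual -/

section gen

variable {A : Type} [NormedCommRing A] [NormedAlgebra ℂ A]

/-- The operators of the dual module. -/
def dualOp (a : A) (l : A →L[ℂ] ℂ) : A →L[ℂ] ℂ := l.comp (ContinuousLinearMap.mul ℂ A a)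

theorem dualOp_apply (a : A) (l : A →L[ℂ] ℂ) (x : A) : dualOp a l x = l (a * x) := rfl

theorem dual_bimod : Bimod (A := A) (E := A →L[ℂ] ℂ) dualOp where
  add_left a b l := by
    ext x
    simp [dualOp_apply, add_mul]
  smul_left s a l := by
    ext x
    simp [dualOp_apply]
  add_right a l l' := by
    ext x
    simp [dualOp_apply]
  smul_right s a l := by
    ext x
    simp [dualOp_apply]
  mul a b l := by
    ext x
    rw [dualOp_apply, dualOp_apply, dualOp_apply, mul_comm a b, mul_assoc]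
  bound := by
    refine ⟨1, fun a l => ?_⟩
    refine ContinuousLinearMap.opNorm_le_bound _ (by positivity) fun x => ?_
    rw [dualOp_apply]
    calc ‖l (a * x)‖ ≤ ‖l‖ * ‖a * x‖ := l.le_opNorm _
      _ ≤ ‖l‖ * (‖a‖ * ‖x‖) := by
          gcongr
          exact norm_mul_le a x
      _ = 1 * ‖a‖ * ‖l‖ * ‖x‖ := by ring

theorem weaklyAmenable_of (h : NoDerivations A) : WeaklyAmenable A := by
  intro D hB hD a c
  obtain ⟨K, hK⟩ := hB.bound
  let D1 : A →ₗ[ℂ] A →ₗ[ℂ] ℂ := LinearMap.mk₂ ℂ D hB.add_left hB.smul_left hB.add_right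
    hB.smul_right
  let D2 : A →L[ℂ] A →L[ℂ] ℂ := D1.mkContinuous₂ K hK
  have h2 : ∀ a c, D2 a c = D a c := fun a c => rfl
  have h3 := h (A →L[ℂ] ℂ) dualOp dual_bimod D2
    { add := fun a b => map_add D2 a b
      smul := fun s a => map_smul D2 s a
      bound := ⟨‖D2‖, D2.le_opNorm⟩
      leibniz := fun a b => by
        ext c
        rw [h2, hD, add_apply, dualOp_apply, dualOp_apply, mul_comm c a]
        rfl } a
  rw [← h2, h3]
  rfl

variable {E : Type} [NormedAddCommGroup E] [NormedSpace ℂ E] {act : A → E → E} {D : A → E}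

theorem act_zero (hA : Bimod act) (a : A) : act a 0 = 0 := by
  have h1 := hA.smul_right 0 a 0
  rwa [zero_smul, zero_smul] at h1

theorem der_one (hA : Bimod act) (hD : Deriv act D) : D 1 = 0 := by
  have h1 := hD.leibniz 1 1
  rw [mul_one] at h1
  have h2 : act 1 (D 1) = act 1 (D 1) + act 1 (D 1) := by
    conv_lhs => rw [h1]
    rw [hA.add_right, ← hA.mul, mul_one]
  have h3 : act 1 (D 1) = 0 := by
    have h4 := sub_eq_zero.mpr h2
    simpa using h4
  rw [h1, h3, add_zero]

theorem der_pi_one (hA : Bimod act) (hD : Deriv act D) (a : A) : act 1 (D a) = D a := by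
  have h1 := hD.leibniz 1 a
  rw [one_mul, der_one hA hD, act_zero hA, add_zero] at h1
  exact h1.symm

/-- A derivation vanishes on the power bounded invertible elements. -/
theorem der_unit (hA : Bimod act) (hD : Deriv act D) {u u' : A} (huu : u * u' = 1)
    (hu : ∀ n : ℕ, ‖u ^ n‖ ≤ 1) (hu' : ∀ n : ℕ, ‖u' ^ n‖ ≤ 1) : D u = 0 := by
  obtain ⟨K, hK⟩ := hA.bound
  obtain ⟨L, hL⟩ := hD.bound
  have key : ∀ n : ℕ, act (u' ^ n) (D (u ^ n)) = (n : ℂ) • act u' (D u) := by
    intro n
    induction n with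
    | zero => rw [pow_zero, pow_zero, der_one hA hD, act_zero hA, Nat.cast_zero, zero_smul]
    | succ n ih =>
      have e1 : u' ^ (n + 1) * u ^ n = u' := by
        rw [pow_succ, mul_right_comm, ← mul_pow, mul_comm u' u, huu, one_pow, one_mul]
      have e2 : u' ^ (n + 1) * u = u' ^ n := by
        rw [pow_succ, mul_assoc, mul_comm u' u, huu, mul_one]
      rw [pow_succ u n, hD.leibniz, hA.add_right, ← hA.mul, ← hA.mul, e1, e2, ih]
      push_cast
      rw [add_smul, one_smul, add_comm]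
  have hb : ∀ n : ℕ, (n : ℝ) * ‖act u' (D u)‖ ≤ |K| * |L| := by
    intro n
    have h1 : ‖(n : ℂ) • act u' (D u)‖ = (n : ℝ) * ‖act u' (D u)‖ := by
      rw [norm_smul]
      simp
    rw [← h1, ← key]
    have h3 : ‖D (u ^ n)‖ ≤ |L| := by
      calc ‖D (u ^ n)‖ ≤ L * ‖u ^ n‖ := hL _
        _ ≤ |L| * ‖u ^ n‖ := by
            gcongr
            exact le_abs_self L
        _ ≤ |L| * 1 := by
            gcongr
            exact hu n
        _ = |L| := mul_one _
    calc ‖act (u' ^ n) (D (u ^ n))‖ ≤ K * ‖u' ^ n‖ * ‖D (u ^ n)‖ := hK _ _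
      _ ≤ |K| * ‖u' ^ n‖ * ‖D (u ^ n)‖ := by
          gcongr
          exact le_abs_self K
      _ ≤ |K| * 1 * |L| := by
          gcongr
          exact hu' n
      _ = |K| * |L| := by rw [mul_one]
  have h0 : act u' (D u) = 0 := by
    by_contra hne
    have hpos : 0 < ‖act u' (D u)‖ := norm_pos_iff.mpr hne
    obtain ⟨n, hn⟩ := exists_nat_gt ((|K| * |L|) / ‖act u' (D u)‖)
    rw [div_lt_iff₀ hpos] at hn
    exact absurd (hb n) (not_le.mpr hn)
  rw [← der_pi_one hA hD, ← huu, hA.mul, h0, act_zero hA]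

end gen

/-! ### The trivial algebra -/

section triv

variable {X : Set ℂ} [CompactSpace X]

theorem noDerivations_of (hX : R X = ⊤) : NoDerivations (RX X) := by
  intro E _ _ _ act hA D0 hD
  let D : R X → E := D0
  have hDs : ∀ (s : ℂ) (a : R X), D (s • a) = s • D a := hD.smul
  have hDa : ∀ a b : R X, D (a + b) = D a + D b := hD.add
  have hmem : ∀ f : C(X, ℂ), f ∈ R X := fun f => by rw [hX]; trivial
  -- the real functions with values in the unit interval
  have h1 : ∀ h : C(X, ℝ), (∀ x, |h x| ≤ 1) →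
      D ⟨⟨fun x => ((h x : ℝ) : ℂ), by fun_prop⟩, hmem _⟩ = 0 := by
    intro h hh
    let s : C(X, ℝ) := ⟨fun x => Real.sqrt (1 - h x ^ 2), by fun_prop⟩
    have hs : ∀ x, s x ^ 2 = 1 - h x ^ 2 := by
      intro x
      refine Real.sq_sqrt ?_
      have h2 := hh x
      rw [abs_le] at h2
      nlinarith [h2.1, h2.2]
    let u : R X := ⟨⟨fun x => (h x : ℂ) + Complex.I * (s x : ℂ), by fun_prop⟩, hmem _⟩
    let u' : R X := ⟨⟨fun x => (h x : ℂ) - Complex.I * (s x : ℂ), by fun_prop⟩, hmem _⟩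
    have hux : ∀ x : X, (u : C(X, ℂ)) x = (h x : ℂ) + Complex.I * (s x : ℂ) := fun x => rfl
    have hux' : ∀ x : X, (u' : C(X, ℂ)) x = (h x : ℂ) - Complex.I * (s x : ℂ) := fun x => rfl
    have hsC : ∀ x : X, ((s x : ℝ) : ℂ) ^ 2 = 1 - ((h x : ℝ) : ℂ) ^ 2 := by
      intro x
      have := hs x
      exact_mod_cast this
    have hprod : ∀ x : X, ((h x : ℂ) + Complex.I * (s x : ℂ)) *
        ((h x : ℂ) - Complex.I * (s x : ℂ)) = 1 := by
      intro x
      have e1 : ((h x : ℂ) + Complex.I * (s x : ℂ)) * ((h x : ℂ) - Complex.I * (s x : ℂ)) =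
          (h x : ℂ) ^ 2 - Complex.I ^ 2 * (s x : ℂ) ^ 2 := by ring
      rw [e1, Complex.I_sq, hsC]
      ring
    have huu : u * u' = 1 := by
      apply Subtype.ext
      ext x
      exact hprod x
    have hn1 : ∀ x : X, ‖(h x : ℂ) + Complex.I * (s x : ℂ)‖ = 1 := by
      intro x
      have e1 : (h x : ℂ) + Complex.I * (s x : ℂ) = ⟨h x, s x⟩ := by
        apply Complex.ext <;> simp
      rw [e1, Complex.norm_def, Complex.normSq_mk]
      have e2 : h x * h x + s x * s x = 1 := by
        have := hs x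
        nlinarith
      rw [e2, Real.sqrt_one]
    have hn2 : ∀ x : X, ‖(h x : ℂ) - Complex.I * (s x : ℂ)‖ = 1 := by
      intro x
      have e1 := congrArg norm (hprod x)
      rw [norm_mul, hn1, one_mul, norm_one] at e1
      exact e1
    have hun : ∀ n : ℕ, ‖u ^ n‖ ≤ 1 := by
      intro n
      show ‖((u ^ n : R X) : C(X, ℂ))‖ ≤ 1
      rw [ContinuousMap.norm_le _ zero_le_one]
      intro x
      have e1 : ((u ^ n : R X) : C(X, ℂ)) x = ((u : C(X, ℂ)) x) ^ n := by
        rw [SubmonoidClass.coe_pow, ContinuousMap.pow_apply]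
      rw [e1, norm_pow, hux, hn1, one_pow]
    have hun' : ∀ n : ℕ, ‖u' ^ n‖ ≤ 1 := by
      intro n
      show ‖((u' ^ n : R X) : C(X, ℂ))‖ ≤ 1
      rw [ContinuousMap.norm_le _ zero_le_one]
      intro x
      have e1 : ((u' ^ n : R X) : C(X, ℂ)) x = ((u' : C(X, ℂ)) x) ^ n := by
        rw [SubmonoidClass.coe_pow, ContinuousMap.pow_apply]
      rw [e1, norm_pow, hux', hn2, one_pow]
    have d1 : D u = 0 := der_unit (A := RX X) hA hD (u := u) (u' := u') huu hun hun'
    have d2 : D u' = 0 := der_unit (A := RX X) hA hD (u := u') (u' := u)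
      (by rw [mul_comm]; exact huu) hun' hun
    have e3 : (⟨⟨fun x => ((h x : ℝ) : ℂ), by fun_prop⟩, hmem _⟩ : R X) =
        (1 / 2 : ℂ) • (u + u') := by
      apply Subtype.ext
      ext x
      show ((h x : ℝ) : ℂ) = (1 / 2 : ℂ) * (((h x : ℂ) + Complex.I * (s x : ℂ)) +
        ((h x : ℂ) - Complex.I * (s x : ℂ)))
      ring
    rw [e3, hDs, hDa, d1, d2, add_zero, smul_zero]
  -- the real functions
  have h2 : ∀ h : C(X, ℝ), D ⟨⟨fun x => ((h x : ℝ) : ℂ), by fun_prop⟩, hmem _⟩ = 0 := by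
    intro h
    have hpos : 0 < ‖h‖ + 1 := by positivity
    let h' : C(X, ℝ) := (‖h‖ + 1)⁻¹ • h
    have hh' : ∀ x, |h' x| ≤ 1 := by
      intro x
      show |(‖h‖ + 1)⁻¹ * h x| ≤ 1
      rw [abs_mul, abs_of_pos (inv_pos.mpr hpos), inv_mul_le_iff₀ hpos, mul_one]
      have := h.norm_coe_le_norm x
      rw [Real.norm_eq_abs] at this
      linarith
    have e1 : (⟨⟨fun x => ((h x : ℝ) : ℂ), by fun_prop⟩, hmem _⟩ : R X) =
        ((‖h‖ + 1 : ℝ) : ℂ) • (⟨⟨fun x => ((h' x : ℝ) : ℂ), by fun_prop⟩, hmem _⟩ : R X) := by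
      apply Subtype.ext
      ext x
      show ((h x : ℝ) : ℂ) = ((‖h‖ + 1 : ℝ) : ℂ) * (((‖h‖ + 1)⁻¹ * h x : ℝ) : ℂ)
      rw [← Complex.ofReal_mul, mul_inv_cancel_left₀ hpos.ne']
    rw [e1, hDs, h1 h' hh', smul_zero]
  have h3 : ∀ a : R X, D a = 0 := by
    intro a
    let hr : C(X, ℝ) := ⟨fun x => ((a : C(X, ℂ)) x).re, by fun_prop⟩
    let hi : C(X, ℝ) := ⟨fun x => ((a : C(X, ℂ)) x).im, by fun_prop⟩
    have e1 : a = (⟨⟨fun x => ((hr x : ℝ) : ℂ), by fun_prop⟩, hmem _⟩ : R X) +
        Complex.I • (⟨⟨fun x => ((hi x : ℝ) : ℂ), by fun_prop⟩, hmem _⟩ : R X) := by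
      apply Subtype.ext
      ext x
      show (a : C(X, ℂ)) x = ((((a : C(X, ℂ)) x).re : ℝ) : ℂ) +
        Complex.I * ((((a : C(X, ℂ)) x).im : ℝ) : ℂ)
      rw [mul_comm Complex.I]
      exact (Complex.re_add_im _).symm
    rw [e1, hDa, hDs, h2 hr, h2 hi, smul_zero, add_zero]
  exact h3

end triv

/-! ### The nontrivial algebra -/

section nontriv

variable {X : Set ℂ} [CompactSpace X]

open Pool.Agent.RX

/-- The bounded continuous function. -/
def bc (f : C(X, ℂ)) : X →ᵇ ℂ := BoundedContinuousFunction.mkOfCompact f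

theorem bc_apply (f : C(X, ℂ)) (x : X) : bc f x = f x := rfl

theorem bc_norm (f : C(X, ℂ)) : ‖bc f‖ = ‖f‖ := BoundedContinuousFunction.norm_mkOfCompact f

theorem closure_ne (h : R X ≠ ⊤) :
    (Algebra.adjoin ℂ (ratSet X)).topologicalClosure ≠ ⊤ := by
  intro h1
  apply h
  rw [Algebra.eq_top_iff]
  intro f
  show f ∈ closure (RationalOn X : Set C(X, ℂ))
  rw [Metric.mem_closure_iff]
  intro ε hε
  have h2 : bc f ∈ closure (Algebra.adjoin ℂ (ratSet X) : Set (X →ᵇ ℂ)) := by
    show bc f ∈ (Algebra.adjoin ℂ (ratSet X)).topologicalClosure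
    rw [h1]
    trivial
  obtain ⟨b, hb, hd⟩ := Metric.mem_closure_iff.1 h2 ε hε
  refine ⟨b.toContinuousMap, isRat_of_mem_adjoin hb, ?_⟩
  have h3 : bc b.toContinuousMap = b := by
    ext x
    rfl
  rw [← h3] at hd
  rw [dist_eq_norm, ← bc_norm]
  rw [dist_eq_norm] at hd
  exact hd

theorem not_weaklyAmenable (h : R X ≠ ⊤) : ¬ WeaklyAmenable (RX X) := by
  obtain ⟨d, hd⟩ := exists_dat (isCompact_iff_compactSpace.2 inferInstance) (closure_ne h)
  have hrat : ∀ b : RationalOn X, IsRat (⇑(bc (b : C(X, ℂ)))) := fun b => b.2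
  have hBA : RationalOn X ≤ R X := Subalgebra.le_topologicalClosure _
  let D1 : RationalOn X →ₗ[ℂ] R X →ₗ[ℂ] ℂ := LinearMap.mk₂ ℂ
    (fun b c => d.pr (⇑(bc (b : C(X, ℂ)))) (⇑(bc (c : C(X, ℂ)))))
    (fun b b' c => d.pr_add_left (bc b) (bc b') (bc c) (hrat b) (hrat b'))
    (fun s b c => d.pr_smul_left s (bc b) (bc c))
    (fun b c c' => d.pr_add_right (bc b) (bc c) (bc c') (hrat b))
    (fun s b c => d.pr_smul_right s (bc b) (bc c))
  have hdense : DenseRange (Subalgebra.inclusion hBA) := by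
    intro a
    rw [Metric.mem_closure_range_iff]
    intro ε hε
    have ha : (a : C(X, ℂ)) ∈ closure (RationalOn X : Set C(X, ℂ)) := a.2
    obtain ⟨b, hb, hdist⟩ := Metric.mem_closure_iff.1 ha ε hε
    exact ⟨⟨b, hb⟩, hdist⟩
  obtain ⟨D, hD1, hD2⟩ := extend_derivation (Subalgebra.inclusion hBA) (fun b => rfl) hdense D1 d.C0
    (fun b c => by
      have h1 := d.pr_bound (bc b) (bc c) (hrat b)
      rw [bc_norm, bc_norm] at h1
      exact h1)
    (fun b b' c => d.pr_leibniz (bc b) (bc b') (bc c) (hrat b) (hrat b'))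
  intro hW
  have q1 : ∀ a b c : R X, D (a + b) c = D a c + D b c := fun a b c => by
    rw [map_add]
    rfl
  have q2 : ∀ (s : ℂ) (a c : R X), D (s • a) c = s * D a c := fun s a c => by
    rw [map_smul]
    rfl
  have q3 : ∀ a b c : R X, D (a * b) c = D b (c * a) + D a (b * c) := fun a b c => by
    rw [hD1, add_comm]
  have hzero : ∀ a c : R X, D a c = 0 := hW (fun a c : R X => D a c)
    { add_left := q1
      smul_left := q2
      add_right := fun a b c => map_add (D a) b c
      smul_right := fun s a c => map_smul (D a) s c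
      bound := ⟨‖D‖, fun a c => D.le_opNorm₂ a c⟩ } q3
  apply hd
  let idf : C(X, ℂ) := ⟨fun x => (x : ℂ), continuous_subtype_val⟩
  have hidB : idf ∈ RationalOn X := ⟨Polynomial.X, 1, fun z _ => by simp, fun z => by simp [idf]⟩
  have h1 : D (Subalgebra.inclusion hBA ⟨idf, hidB⟩) 1 = 0 := hzero _ _
  rw [hD2] at h1
  have h2 : d.pr (⇑(bc idf)) (⇑(bc ((1 : R X) : C(X, ℂ)))) =
      ∫ z in d.Om, ((‖muhat d.ν d.u z‖ : ℝ) : ℂ) := by
    unfold Dat.pr
    apply integral_congr_ae
    filter_upwards [d.T_id, ae_restrict_mem d.measurableSet_Om] with z hz hzO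
    have h3 : d.T (⇑(bc idf)) z = muhat d.ν d.u z := hz
    have h4 : ext0 (⇑(bc ((1 : R X) : C(X, ℂ)))) z = 1 := by
      rw [ext0_apply' _ hzO.2]
      rfl
    rw [h3, h4, one_mul, d.muhat_mul_w]
  have h5 : ∫ z in d.Om, ‖muhat d.ν d.u z‖ = 0 := by
    have h6 : ∫ z in d.Om, ((‖muhat d.ν d.u z‖ : ℝ) : ℂ) = 0 := by
      rw [← h2]
      exact h1
    rw [integral_complex_ofReal] at h6
    exact_mod_cast h6
  have h7 : Integrable (fun z => ‖muhat d.ν d.u z‖) (volume.restrict d.Om) := by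
    have := (d.T_integrable (bc idf) (hrat ⟨idf, hidB⟩)).norm
    refine this.congr ?_
    filter_upwards [d.T_id] with z hz
    have h3 : d.T (⇑(bc idf)) z = muhat d.ν d.u z := hz
    rw [h3]
  have h8 := (integral_eq_zero_iff_of_nonneg (fun z => norm_nonneg _) h7).1 h5
  filter_upwards [h8] with z hz
  simpa using hz

end nontriv

/-- For a compact subset `X` of the complex plane, `R(X)` is weakly amenable if and only if
`R(X) = C(X)`, if and only if every bounded derivation from `R(X)` to a commutative Banach bimodule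
is zero. -/
theorem result (X : Set ℂ) [CompactSpace X] :
    (WeaklyAmenable (RX X) ↔ R X = ⊤) ∧ (NoDerivations (RX X) ↔ R X = ⊤) := by
  have h1 : WeaklyAmenable (RX X) → R X = ⊤ := fun h => by
    by_contra hne
    exact not_weaklyAmenable hne h
  exact ⟨⟨h1, fun h => weaklyAmenable_of (noDerivations_of h)⟩,
    ⟨fun h => h1 (weaklyAmenable_of h), noDerivations_of⟩⟩

end

end Pool.Agent.Results.MP_159c46_an.WeaklyAmenableRX
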